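import Pool.Agent.helper7.AL.SpecE

/-!
# Row LEE of project AL (MP_bf63dc_nt): Theorem E, assembly (the box lemma is copied from Pool/Agent/helper8/AL/LDD.lean)
-/

set_option autoImplicit false

namespace Pool.Agent.LD

open Finset Pool.Agent.helper85.FC Pool.Agent.AT

/-- One application of the box theorem. -/
theorem LEE_box {k m K₁ K₀ : ℕ}
    (hK₁ : ∀ H : Fin (m * k) → Finset (ℕ × ℤ), (∀ i, K₁ ≤ #(H i)) → (∀ i, ∀ f ∈ H i, 0 < f.1) →
      (∀ f ∈ Fintype.piFinset H, Adm f ∧ Function.Injective f) → ∃ f ∈ Fintype.piFinset H, Many f)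
    (hKK : K₁ ≤ K₀) (s : Fin k → ℕ) (H : Fin k → Finset ℤ) (μ : Fin m → ℕ) (h : Fin m → ℤ)
    (hs : ∀ i, 0 < s i) (hμ : ∀ p, 0 < μ p) (hc : ∀ i, #(H i) = K₀)
    (hA : ∀ x : Fin m → Fin k → ℤ, (∀ p, x p ∈ Fintype.piFinset H) →
      Adm (cop m s μ h x) ∧ Function.Injective (cop m s μ h x)) :
    ∃ x : Fin m → Fin k → ℤ, (∀ p, x p ∈ Fintype.piFinset H) ∧ Many (cop m s μ h x) := by
  classical
  have hinj : ∀ r : Fin (m * k), Function.Injective (fun x : ℤ => (s (finProdFinEquiv.symm r).2 * μ (finProdFinEquiv.symm r).1,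
      s (finProdFinEquiv.symm r).2 * h (finProdFinEquiv.symm r).1 + x)) := by
    intro r x y hxy
    have h1 := congrArg Prod.snd hxy
    simp only at h1
    linarith
  obtain ⟨HB, hHB⟩ : ∃ HB : Fin (m * k) → Finset (ℕ × ℤ), HB = fun r => (H (finProdFinEquiv.symm r).2).image
      (fun x : ℤ => (s (finProdFinEquiv.symm r).2 * μ (finProdFinEquiv.symm r).1,
        s (finProdFinEquiv.symm r).2 * h (finProdFinEquiv.symm r).1 + x)) := ⟨_, rfl⟩
  have hcard : ∀ r, K₁ ≤ #(HB r) := by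
    intro r
    rw [hHB]
    simp only
    rw [Finset.card_image_of_injective _ (hinj r), hc]
    exact hKK
  have hform : ∀ f ∈ Fintype.piFinset HB, ∃ x : Fin m → Fin k → ℤ, (∀ p, x p ∈ Fintype.piFinset H) ∧ f = cop m s μ h x := by
    intro f hf
    rw [Fintype.mem_piFinset] at hf
    have h1 : ∀ r : Fin (m * k), ∃ y ∈ H (finProdFinEquiv.symm r).2, (s (finProdFinEquiv.symm r).2 * μ (finProdFinEquiv.symm r).1,
        s (finProdFinEquiv.symm r).2 * h (finProdFinEquiv.symm r).1 + y) = f r := by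
      intro r
      have h2 := hf r
      rw [hHB] at h2
      simp only at h2
      rw [Finset.mem_image] at h2
      exact h2
    choose y hy hyf using h1
    refine ⟨fun p i => y (finProdFinEquiv (p, i)), fun p => ?_, ?_⟩
    · rw [Fintype.mem_piFinset]
      intro i
      have h3 := hy (finProdFinEquiv (p, i))
      rw [Equiv.symm_apply_apply] at h3
      exact h3
    · funext r
      rw [← hyf r]
      unfold cop
      simp only [Prod.mk.eta, Equiv.apply_symm_apply]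
  obtain ⟨f, hf, hM⟩ := hK₁ HB hcard (by
    intro r f hf
    rw [hHB] at hf
    simp only at hf
    rw [Finset.mem_image] at hf
    obtain ⟨x, -, rfl⟩ := hf
    exact Nat.mul_pos (hs _) (hμ _)) (by
    intro f hf
    obtain ⟨x, hx, rfl⟩ := hform f hf
    exact hA x hx)
  obtain ⟨x, hx, rfl⟩ := hform f hf
  exact ⟨x, hx, hM⟩

theorem LEE (hBOX : ∀ k, 1 ≤ k → BOXk k) (hLPG : LPG_stmt) (hLHZ : LHZ_stmt) (hLJA : LJA_stmt)
    (hLEI : LEI_stmt) (hLJD : LJD_stmt) : LEE_stmt := by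
  classical
  intro k m hk hm
  obtain ⟨K₁, hK₁⟩ := hBOX (m * k) (Nat.mul_pos hm hk)
  obtain ⟨K₀, hKK, hK₀⟩ : ∃ K₀ : ℕ, K₁ ≤ K₀ ∧ 1 ≤ K₀ := ⟨max K₁ 1, le_max_left _ _, le_max_right _ _⟩
  obtain ⟨W, hW⟩ : ∃ W : ℕ, W = (m * k * K₀).factorial := ⟨_, rfl⟩
  have hW1 : 1 ≤ W := by rw [hW]; exact Nat.factorial_pos _
  refine ⟨K₀ * W, Nat.mul_pos hK₀ hW1, fun θ s hs => ?_⟩
  by_cases hB : BoxT θ k s (K₀ * W)
  · exact Or.inl hB
  right
  intro μ hμ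
  obtain ⟨H, hHc, hHW, hHf⟩ := hLPG θ k K₀ W s hW1 hB
  obtain ⟨Q, hQ⟩ : ∃ Q : ℕ, Q = W * ∏ p, μ p := ⟨_, rfl⟩
  have hQ0 : 0 < Q := by
    rw [hQ]
    exact Nat.mul_pos hW1 (Finset.prod_pos fun p _ => hμ p)
  have hWp : ∀ p : ℕ, p.Prime → p ≤ m * k * K₀ → p ∣ W := by
    intro p hp hle
    rw [hW]
    exact Nat.dvd_factorial hp.pos hle
  have hkK : k * K₀ ≤ m * k * K₀ := by
    have : k ≤ m * k := Nat.le_mul_of_pos_left k hm
    exact Nat.mul_le_mul_right K₀ this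
  have hmk : m * k ≤ m * k * K₀ := Nat.le_mul_of_pos_right _ hK₀
  obtain ⟨h₀, hh₀⟩ := hLHZ k K₀ Q s H hK₀ hQ0 hHc
    (fun p hp hpk i x hx y hy => dvd_trans (Int.natCast_dvd_natCast.mpr (hWp p hp (hpk.trans hkK))) (hHW i x hx y hy))
    (fun h hh => (hHf h hh).1)
  obtain ⟨B, hBd⟩ : ∃ B : ℕ, ∀ i : Fin k, ∀ x ∈ H i, |x| ≤ (B : ℤ) := by
    refine ⟨∑ i, ∑ x ∈ H i, x.natAbs, fun i x hx => ?_⟩
    have h1 : x.natAbs ≤ ∑ x ∈ H i, x.natAbs :=
      Finset.single_le_sum (f := fun x : ℤ => x.natAbs) (fun _ _ => Nat.zero_le _) hx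
    have h2 : ∑ x ∈ H i, x.natAbs ≤ ∑ i, ∑ x ∈ H i, x.natAbs :=
      Finset.single_le_sum (f := fun i => ∑ x ∈ H i, x.natAbs) (fun _ _ => Nat.zero_le _) (Finset.mem_univ i)
    have h3 := h1.trans h2
    have h4 : |x| = (x.natAbs : ℤ) := Int.abs_eq_natAbs x
    rw [h4]
    exact_mod_cast h3
  refine ⟨Q * (m * k ^ 2 * K₀ ^ 2 + 1) + B, fun w => ?_⟩
  obtain ⟨h, hh, hinj⟩ := hLEI k m K₀ Q s H μ h₀ hQ0 hs hμ hHc (fun y hy => (hHf y hy).2.1) w
  have hAdm : ∀ x : Fin m → Fin k → ℤ, (∀ p, x p ∈ Fintype.piFinset H) → Adm (cop m s μ h x) := by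
    intro x hx
    refine hLJA k m Q s H μ h h₀ ?_ ?_ (fun p => (hh p).2.2) hh₀ (fun y hy => (hHf y hy).1) x hx
    · intro p hp hle
      rw [hQ]
      exact Dvd.dvd.mul_right (hWp p hp (hle.trans hmk)) _
    · intro p
      rw [hQ]
      exact Dvd.dvd.mul_left (Finset.dvd_prod_of_mem μ (Finset.mem_univ p)) _
  obtain ⟨x, hx, hM⟩ := LEE_box hK₁ hKK s H μ h hs hμ hHc (fun x hx => ⟨hAdm x hx, hinj x hx⟩)
  obtain ⟨I, i, hI, hN⟩ := hLJD k m θ s μ h x hμ (fun p => (hHf _ (hx p)).2.2) hM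
  refine ⟨h, fun p => x p (i p), I, i, ?_, hI, hN⟩
  intro p
  obtain ⟨h1, h2, -⟩ := hh p
  have h3 := hBd (i p) (x p (i p)) (Fintype.mem_piFinset.1 (hx p) (i p))
  have h4 : (0 : ℤ) ≤ Q * (m * k ^ 2 * K₀ ^ 2 + 1) := by positivity
  have h5 : (0 : ℤ) ≤ (B : ℤ) := by positivity
  push_cast
  refine ⟨h1, by linarith, by linarith⟩

end Pool.Agent.LD
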