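import Pool.Agent.helper7.AL.SpecE

set_option autoImplicit false

namespace Pool.Agent.LD

open Finset Pool.Agent.helper85.FC Pool.Agent.AT

theorem LEI_avoid {α β : Type*} (A : Finset α) (B : Finset β) (bad : β → α → Prop)
    (h1 : ∀ b ∈ B, ∀ a ∈ A, ∀ a' ∈ A, bad b a → bad b a' → a = a') (hc : #B < #A) :
    ∃ a ∈ A, ∀ b ∈ B, ¬ bad b a := by
  by_contra hcon
  push Not at hcon
  have hA : A.Nonempty := by
    rw [← Finset.card_pos]
    omega
  obtain ⟨a₀, ha₀⟩ := hA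
  obtain ⟨b₀, -⟩ := hcon a₀ ha₀
  have : Nonempty β := ⟨b₀⟩
  choose! f hf using hcon
  obtain ⟨a, ha, a', ha', hne, he⟩ := Finset.exists_ne_map_eq_of_card_lt_of_maps_to hc
    (fun a ha => (hf a ha).1)
  exact hne (h1 (f a) (hf a ha).1 a ha a' ha' (hf a ha).2 (he ▸ (hf a' ha').2))

theorem LEI_step (k m K Q : ℕ) (s : Fin k → ℕ) (H : Fin k → Finset ℤ) (μ : Fin m → ℕ) (h₀ : ℤ)
    (hQ : 0 < Q) (hs : ∀ i, 0 < s i) (hμ : ∀ p, 0 < μ p) (hH : ∀ i, #(H i) = K) (W : ℤ) (μp : ℕ)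
    (h : Fin m → ℤ) :
    ∃ v : ℤ, (W < v ∧ v ≤ W + Q * (m * k ^ 2 * K ^ 2 + 1) ∧ (Q : ℤ) ∣ v - h₀) ∧
      ∀ q : Fin m, ∀ i j : Fin k, ∀ x ∈ H i, ∀ y ∈ H j,
        (s j : ℤ) * μ q * (s i * v + x) ≠ s i * μp * (s j * h q + y) := by
  set a : ℤ := h₀ - W - 1 with ha
  have hQ' : (0 : ℤ) < Q := by exact_mod_cast hQ
  have h1 : 0 ≤ a % Q := Int.emod_nonneg _ hQ'.ne'
  have h2 : a % Q < Q := Int.emod_lt_of_pos _ hQ'
  set v₀ : ℤ := W + 1 + a % Q with hv₀
  have h3 : (Q : ℤ) ∣ v₀ - h₀ := by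
    have h4 : v₀ - h₀ = -(Q * (a / Q)) := by
      have := Int.emod_add_mul_ediv a Q
      rw [hv₀]
      linarith
    rw [h4]
    exact (Dvd.intro _ rfl).neg_right
  obtain ⟨t, ht, hbad⟩ := LEI_avoid (Finset.range (m * k ^ 2 * K ^ 2 + 1))
    ((Finset.univ : Finset (Fin m)) ×ˢ ((Finset.univ.sigma H) ×ˢ (Finset.univ.sigma H)))
    (fun b t => (s b.2.2.1 : ℤ) * μ b.1 * (s b.2.1.1 * (v₀ + Q * (t : ℕ)) + b.2.1.2) =
      s b.2.1.1 * μp * (s b.2.2.1 * h b.1 + b.2.2.2)) (by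
      intro b _ t _ t' _ e e'
      have h5 := e.trans e'.symm
      have n1 : (s b.2.2.1 : ℤ) ≠ 0 := by exact_mod_cast (hs _).ne'
      have n2 : (μ b.1 : ℤ) ≠ 0 := by exact_mod_cast (hμ _).ne'
      have n3 : (s b.2.1.1 : ℤ) ≠ 0 := by exact_mod_cast (hs _).ne'
      have h6 := mul_left_cancel₀ (mul_ne_zero n1 n2) h5
      have h7 : (s b.2.1.1 : ℤ) * (v₀ + Q * (t : ℕ)) = s b.2.1.1 * (v₀ + Q * (t' : ℕ)) := by linarith
      have h8 := mul_left_cancel₀ n3 h7
      have h9 : (Q : ℤ) * t = Q * t' := by linarith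
      exact_mod_cast mul_left_cancel₀ hQ'.ne' h9) (by
      rw [Finset.card_product, Finset.card_product, Finset.card_sigma, Finset.card_range]
      simp only [hH, Finset.sum_const, Finset.card_univ, Fintype.card_fin, smul_eq_mul]
      have : m * (k * K * (k * K)) = m * k ^ 2 * K ^ 2 := by ring
      omega)
  refine ⟨v₀ + Q * t, ⟨?_, ?_, ?_⟩, ?_⟩
  · have : (0 : ℤ) ≤ Q * t := by positivity
    linarith
  · have h10 : t ≤ m * k ^ 2 * K ^ 2 := by
      have := Finset.mem_range.1 ht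
      omega
    have h11 : (t : ℤ) ≤ m * k ^ 2 * K ^ 2 := by exact_mod_cast h10
    have h12 : (Q : ℤ) * t ≤ Q * (m * k ^ 2 * K ^ 2) := mul_le_mul_of_nonneg_left h11 hQ'.le
    have h13 : (Q : ℤ) * (m * k ^ 2 * K ^ 2 + 1) = Q * (m * k ^ 2 * K ^ 2) + Q := by ring
    rw [h13]
    linarith
  · have : v₀ + Q * t - h₀ = (v₀ - h₀) + Q * t := by ring
    rw [this]
    exact dvd_add h3 (dvd_mul_right _ _)
  · intro q i j x hx y hy e
    exact hbad (q, (⟨i, x⟩, ⟨j, y⟩)) (by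
      simp only [Finset.mem_product, Finset.mem_univ, Finset.mem_sigma, true_and]
      exact ⟨hx, hy⟩) e

theorem LEI : LEI_stmt := by
  intro k m K Q s H μ h₀ hQ hs hμ hH hinj w
  have claim : ∀ r : ℕ, ∃ h : Fin m → ℤ,
      (∀ p, w p < h p ∧ h p ≤ w p + Q * (m * k ^ 2 * K ^ 2 + 1) ∧ (Q : ℤ) ∣ h p - h₀) ∧
      ∀ p q : Fin m, (q : ℕ) < p → (p : ℕ) < r → ∀ i j : Fin k, ∀ x ∈ H i, ∀ y ∈ H j,
        (s j : ℤ) * μ q * (s i * h p + x) ≠ s i * μ p * (s j * h q + y) := by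
    intro r
    induction r with
    | zero =>
      have h1 : ∀ p : Fin m, ∃ v : ℤ, w p < v ∧ v ≤ w p + Q * (m * k ^ 2 * K ^ 2 + 1) ∧ (Q : ℤ) ∣ v - h₀ := by
        intro p
        obtain ⟨v, hv, -⟩ := LEI_step k m K Q s H μ h₀ hQ hs hμ hH (w p) (μ p) (fun _ => 0)
        exact ⟨v, hv⟩
      choose h hh using h1
      exact ⟨h, hh, fun p q _ hp => absurd hp (Nat.not_lt_zero _)⟩
    | succ r ih =>
      obtain ⟨h, hh, hd⟩ := ih
      by_cases hr : r < m
      · obtain ⟨v, hv, hne⟩ := LEI_step k m K Q s H μ h₀ hQ hs hμ hH (w ⟨r, hr⟩) (μ ⟨r, hr⟩) h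
        refine ⟨Function.update h ⟨r, hr⟩ v, ?_, ?_⟩
        · intro p
          by_cases hp : p = ⟨r, hr⟩
          · subst hp
            rw [Function.update_self]
            exact hv
          · rw [Function.update_of_ne hp]
            exact hh p
        · intro p q hqp hpr i j x hx y hy
          have hq : q ≠ ⟨r, hr⟩ := by
            intro e
            rw [e] at hqp
            simp only at hqp
            omega
          rw [Function.update_of_ne hq]
          by_cases hp : p = ⟨r, hr⟩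
          · subst hp
            rw [Function.update_self]
            exact hne q i j x hx y hy
          · rw [Function.update_of_ne hp]
            have hp2 : (p : ℕ) ≠ r := fun e => hp (Fin.ext e)
            exact hd p q hqp (by omega) i j x hx y hy
      · refine ⟨h, hh, ?_⟩
        intro p q hqp hpr
        exact hd p q hqp (by have := p.2; omega)
  obtain ⟨h, hh, hd⟩ := claim m
  refine ⟨h, hh, ?_⟩
  intro x hx t t' he
  have key : ∀ (p q : Fin m) (i j : Fin k), s i * μ p = s j * μ q →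
      (s i : ℤ) * h p + x p i = s j * h q + x q j → (p, i) = (q, j) := by
    intro p q i j e1 e2
    have e1' : (s i : ℤ) * μ p = s j * μ q := by exact_mod_cast e1
    have hxi : x p i ∈ H i := (Fintype.mem_piFinset.1 (hx p)) i
    have hxj : x q j ∈ H j := (Fintype.mem_piFinset.1 (hx q)) j
    rcases lt_trichotomy (p : ℕ) (q : ℕ) with hlt | heq | hgt
    · exfalso
      refine hd q p hlt q.2 j i (x q j) hxj (x p i) hxi ?_
      rw [e1', e2]
    · have hpq : p = q := Fin.ext heq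
      subst hpq
      have e3 : s i = s j := Nat.eq_of_mul_eq_mul_right (hμ p) e1
      have e4 : x p i = x p j := by
        rw [e3] at e2
        linarith
      have e5 : fo s (x p) i = fo s (x p) j := by
        unfold fo
        rw [e3, e4]
      rw [hinj (x p) (hx p) e5]
    · exfalso
      refine hd p q hgt p.2 i j (x p i) hxi (x q j) hxj ?_
      rw [← e1', e2]
  have e1 := (Prod.ext_iff.1 he).1
  have e2 := (Prod.ext_iff.1 he).2
  have e3 := key _ _ _ _ e1 e2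
  exact finProdFinEquiv.symm.injective e3

end Pool.Agent.LD
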