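import Pool.Agent.helper7.AL.SpecD

set_option autoImplicit false

namespace Pool.Agent.LD

open Finset Pool.Agent.helper85.FC Pool.Agent.AT

theorem LJD_pig {α : Type*} [Fintype α] (P : α → ℕ → Prop) (h : ∀ N : ℕ, ∃ n ≥ N, ∃ e, P e n) :
    ∃ e, ∀ N : ℕ, ∃ n ≥ N, P e n := by
  by_contra hc
  push Not at hc
  choose N hN using hc
  obtain ⟨n, hn, e, he⟩ := h (∑ e, N e)
  exact hN e n (le_trans (Finset.single_le_sum (fun _ _ => Nat.zero_le _) (Finset.mem_univ e)) hn) he

/-- the hits of the copies -/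
theorem LJD_hits {k m : ℕ} (s : Fin k → ℕ) (μ : Fin m → ℕ) (h : Fin m → ℤ) (x : Fin m → Fin k → ℤ) (n : ℕ) :
    hits (cop m s μ h x) n =
      ∑ p : Fin m, #{i : Fin k | (ev (s i * μ p, s i * h p + x p i) n).Prime} := by
  unfold hits
  rw [Finset.card_filter]
  have h1 := Equiv.sum_comp (finProdFinEquiv (m := m) (n := k)).symm
    (fun q : Fin m × Fin k => if (ev (s q.2 * μ q.1, s q.2 * h q.1 + x q.1 q.2) n).Prime then 1 else 0)
  have h2 : (∑ i : Fin (m * k), if (ev (cop m s μ h x i) n).Prime then 1 else 0) =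
      ∑ i : Fin (m * k), (fun q : Fin m × Fin k =>
        if (ev (s q.2 * μ q.1, s q.2 * h q.1 + x q.1 q.2) n).Prime then 1 else 0)
          ((finProdFinEquiv (m := m) (n := k)).symm i) := by
    apply Finset.sum_congr rfl
    intro i _
    rfl
  rw [h2, h1, Fintype.sum_prod_type]
  apply Finset.sum_congr rfl
  intro p _
  rw [Finset.card_filter]

theorem LJD : LJD_stmt := by
  intro k m θ s μ h x hμ hx hM
  have hx' : ∀ p, ∃ N : ℕ, ∀ n ≥ N, (hits (fo s (x p)) n : ℝ) ≤ θ * k := by
    intro p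
    have h1 := hx p
    unfold ManyT at h1
    push Not at h1
    exact h1
  choose N hN using hx'
  -- one copy
  have hone : ∀ n : ℕ, ∑ p, (N p + (h p).natAbs) ≤ n → ∀ p,
      (#{i : Fin k | (ev (s i * μ p, s i * h p + x p i) n).Prime} : ℝ) ≤ θ * k := by
    intro n hn p
    have h1 : N p + (h p).natAbs ≤ n :=
      le_trans (Finset.single_le_sum (f := fun p => N p + (h p).natAbs) (fun _ _ => Nat.zero_le _)
        (Finset.mem_univ p)) hn
    have h2 : n ≤ μ p * n := Nat.le_mul_of_pos_left n (hμ p)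
    obtain ⟨n', hn'⟩ : ∃ n' : ℕ, (n' : ℤ) = μ p * n + h p := by
      refine ⟨((μ p : ℤ) * n + h p).toNat, ?_⟩
      have h3 : (n : ℤ) ≤ μ p * n := by exact_mod_cast h2
      omega
    have h4 : N p ≤ n' := by
      have h3 : (n : ℤ) ≤ μ p * n := by exact_mod_cast h2
      omega
    have h5 := hN p n' h4
    have h6 : #{i : Fin k | (ev (s i * μ p, s i * h p + x p i) n).Prime} = hits (fo s (x p)) n' := by
      unfold hits
      congr 1
      apply Finset.filter_congr
      intro i _
      have h7 : ev (s i * μ p, s i * h p + x p i) n = ev (fo s (x p) i) n' := by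
        unfold ev fo
        simp only
        rw [hn']
        congr 1
        push_cast
        ring
      rw [h7]
    rw [h6]
    exact h5
  have hmain : ∀ M : ℕ, ∃ n ≥ M, ∃ e : Finset (Fin m) × (Fin m → Fin k),
      (m : ℝ) * (1 / 4 + 1 / 500000) < θ * #(e.1) ∧
        ∀ p ∈ e.1, (ev (s (e.2 p) * μ p, s (e.2 p) * h p + x p (e.2 p)) n).Prime := by
    intro M
    obtain ⟨n, hn, hlt⟩ := hM (max M (∑ p, (N p + (h p).natAbs)))
    refine ⟨n, le_trans (le_max_left _ _) hn, ?_⟩
    have hn2 := le_trans (le_max_right _ _) hn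
    classical
    set I : Finset (Fin m) := Finset.univ.filter
      (fun p => ∃ i : Fin k, (ev (s i * μ p, s i * h p + x p i) n).Prime) with hI
    have hle : (hits (cop m s μ h x) n : ℝ) ≤ #I * (θ * k) := by
      rw [LJD_hits]
      push_cast
      rw [← nsmul_eq_mul, ← Finset.sum_const]
      have h1 : ∑ p : Fin m, (#{i : Fin k | (ev (s i * μ p, s i * h p + x p i) n).Prime} : ℝ) =
          ∑ p ∈ I, (#{i : Fin k | (ev (s i * μ p, s i * h p + x p i) n).Prime} : ℝ) := by
        symm
        apply Finset.sum_subset (Finset.subset_univ _)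
        intro p _ hp
        rw [hI, Finset.mem_filter] at hp
        push Not at hp
        have hp2 := hp (Finset.mem_univ p)
        rw [Nat.cast_eq_zero, Finset.card_eq_zero, Finset.filter_eq_empty_iff]
        intro i _
        exact hp2 i
      rw [h1]
      exact Finset.sum_le_sum (fun p _ => hone n hn2 p)
    have hk : 0 < k := by
      rcases Nat.eq_zero_or_pos k with h0 | h0
      · exfalso
        subst h0
        simp only [Nat.cast_zero, mul_zero, Nat.mul_zero] at hle hlt
        linarith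
      · exact h0
    have hkR : (0 : ℝ) < k := by exact_mod_cast hk
    have hchoice : ∀ p : Fin m, ∃ i : Fin k, p ∈ I → (ev (s i * μ p, s i * h p + x p i) n).Prime := by
      intro p
      by_cases hp : p ∈ I
      · rw [hI, Finset.mem_filter] at hp
        obtain ⟨i, hi⟩ := hp.2
        exact ⟨i, fun _ => hi⟩
      · exact ⟨⟨0, hk⟩, fun h => absurd h hp⟩
    choose i hi using hchoice
    refine ⟨(I, i), ?_, fun p hp => hi p hp⟩
    have h8 : (1 / 4 + 1 / 500000 : ℝ) * ((m : ℝ) * k) < #I * (θ * k) := by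
      refine lt_of_lt_of_le ?_ hle
      have := hlt
      push_cast at this ⊢
      exact this
    have h9 : ((m : ℝ) * (1 / 4 + 1 / 500000)) * k < (θ * #I) * k := by nlinarith
    exact lt_of_mul_lt_mul_right h9 hkR.le
  obtain ⟨e, he⟩ := LJD_pig _ hmain
  refine ⟨e.1, e.2, ?_, ?_⟩
  · obtain ⟨n, _, h1, _⟩ := he 0
    exact h1
  · intro M
    obtain ⟨n, hn, _, h2⟩ := he M
    exact ⟨n, hn, h2⟩

end Pool.Agent.LD
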